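import Mathlib
import Pool.Agent.Helper6.Helly.Cert
import Pool.Agent.Helper6.Helly.Iter

/-!
A list of elements of `A` certifying the norm of a projection (MP_882a21_co, symmetric case).
-/

set_option autoImplicit false

namespace Pool.Agent.Helper22.DH

open scoped BigOperators RealInnerProductSpace

/-- Project DH, piece CERT. -/
theorem cert {d : ℕ} (A : Finset (EuclideanSpace ℝ (Fin d))) (r : ℝ) (hr : 0 < r)
    (hA : ∀ y : EuclideanSpace ℝ (Fin d), ∃ p ∈ A, ‖y‖ ≤ r * ⟪p, y⟫)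
    (E : Submodule ℝ (EuclideanSpace ℝ (Fin d))) (b : ℕ) (hb : 0 < b)
    (hE : Module.finrank ℝ E ≤ b) (m : ℕ) (hm : 0 < m) (δ : ℝ) (hδ : 0 < δ) :
    ∃ (S : ℕ) (w : Fin (2 ^ S * m) → EuclideanSpace ℝ (Fin d)), (∀ l, w l ∈ A) ∧
      ∀ y : EuclideanSpace ℝ (Fin d),
        ‖E.starProjection y‖ / (2 * √b * r) - δ * ‖y‖ ≤
          1 / (2 ^ S * m : ℝ) * ∑ l, |⟪w l, y⟫| := by
  classical
  set A' : Finset (EuclideanSpace ℝ (Fin d)) := A.image (fun p => r • p) with hA'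
  obtain ⟨μ', h1, h2, h3⟩ := Pool.Agent.Helper6.Helly.cert_proj A' (by
    intro y
    obtain ⟨p, hp, h⟩ := hA y
    exact ⟨r • p, Finset.mem_image_of_mem _ hp, by rw [real_inner_smul_left]; exact h⟩) E b hE
  have hinj : Set.InjOn (fun p : EuclideanSpace ℝ (Fin d) => r • p) A := by
    intro p _ q _ h
    exact smul_right_injective _ hr.ne' h
  rw [hA', Finset.sum_image hinj] at h2
  obtain ⟨p₀, hp₀, _⟩ := hA 0
  have hAne : A.Nonempty := ⟨p₀, hp₀⟩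
  have hcard : 0 < A.card := Finset.card_pos.2 hAne
  set μ : EuclideanSpace ℝ (Fin d) → ℝ := fun p => μ' (r • p) with hμ
  have hμ1 : ∑ a ∈ A, μ a = 1 := h2
  -- the size of the vectors
  set D : ℝ := ∑ a ∈ A, ‖a‖ with hD
  have hD0 : 0 ≤ D := Finset.sum_nonneg fun a _ => norm_nonneg a
  obtain ⟨S, hS⟩ : ∃ S : ℕ, (A.card : ℝ) + A.card * D / δ ≤ 2 ^ S := by
    obtain ⟨S, hS⟩ := pow_unbounded_of_one_lt ((A.card : ℝ) + A.card * D / δ)
      (by norm_num : (1 : ℝ) < 2)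
    exact ⟨S, hS.le⟩
  have hm1 : (1 : ℝ) ≤ m := by exact_mod_cast hm
  have h2S : (0 : ℝ) < 2 ^ S := by positivity
  have hNS : (2 : ℝ) ^ S ≤ ((2 ^ S * m : ℕ) : ℝ) := by
    push_cast
    nlinarith
  have hcD : 0 ≤ (A.card : ℝ) * D / δ := by positivity
  have hcN : A.card ≤ 2 ^ S * m := by
    have : (A.card : ℝ) ≤ ((2 ^ S * m : ℕ) : ℝ) := by linarith
    exact_mod_cast this
  obtain ⟨L, hL⟩ := Pool.Agent.Helper6.Helly.exists_list_gen A hAne μ (fun a => h1 _) hμ1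
    (2 ^ S * m) hcN
  refine ⟨S, fun l => L l, fun l => (L l).2, ?_⟩
  intro y
  have h4 := hL (fun a => |⟪a, y⟫|) (fun a => abs_nonneg _)
  have hN0 : (0 : ℝ) < ((2 ^ S * m : ℕ) : ℝ) := by linarith
  set I : ℝ := ∑ a ∈ A, μ a * |⟪a, y⟫| with hI
  have hI0 : 0 ≤ I := Finset.sum_nonneg fun a _ => mul_nonneg (h1 _) (abs_nonneg _)
  have hID : I ≤ D * ‖y‖ := by
    rw [hI, hD, Finset.sum_mul]
    apply Finset.sum_le_sum
    intro a ha
    have h5 : μ a ≤ 1 := by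
      rw [← hμ1]
      exact Finset.single_le_sum (fun c _ => h1 _) ha
    calc μ a * |⟪a, y⟫| ≤ 1 * (‖a‖ * ‖y‖) :=
          mul_le_mul h5 (abs_real_inner_le_norm _ _) (abs_nonneg _) zero_le_one
      _ = _ := one_mul _
  have h5 : ‖E.starProjection y‖ / (2 * √b * r) ≤ I := by
    have hb0 : 0 < √(b : ℝ) := Real.sqrt_pos.2 (by exact_mod_cast hb)
    rw [div_le_iff₀ (by positivity)]
    have h6 := h3 y
    rw [hA', Finset.sum_image hinj] at h6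
    have h7 : ∑ a ∈ A, μ' (r • a) * |⟪r • a, y⟫| = r * I := by
      rw [hI, Finset.mul_sum]
      refine Finset.sum_congr rfl fun a _ => ?_
      rw [real_inner_smul_left, abs_mul, abs_of_pos hr]
      simp only [hμ]
      ring
    rw [h7] at h6
    linarith
  have h6 : (A.card : ℝ) / ((2 ^ S * m : ℕ) : ℝ) * I ≤ δ * ‖y‖ := by
    have h7 : (A.card : ℝ) / ((2 ^ S * m : ℕ) : ℝ) * D ≤ δ := by
      rw [div_mul_eq_mul_div, div_le_iff₀ hN0]
      have h8 : (A.card : ℝ) * D / δ ≤ ((2 ^ S * m : ℕ) : ℝ) := by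
        have : (0 : ℝ) ≤ A.card := Nat.cast_nonneg _
        linarith
      rw [div_le_iff₀ hδ] at h8
      linarith
    calc (A.card : ℝ) / ((2 ^ S * m : ℕ) : ℝ) * I ≤
          (A.card : ℝ) / ((2 ^ S * m : ℕ) : ℝ) * (D * ‖y‖) :=
          mul_le_mul_of_nonneg_left hID (by positivity)
      _ = (A.card : ℝ) / ((2 ^ S * m : ℕ) : ℝ) * D * ‖y‖ := by ring
      _ ≤ δ * ‖y‖ := mul_le_mul_of_nonneg_right h7 (norm_nonneg y)
  have h7 : (1 : ℝ) / (2 ^ S * m) * ∑ l, |⟪((L l : A) : EuclideanSpace ℝ (Fin d)), y⟫| =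
      (∑ l, |⟪((L l : A) : EuclideanSpace ℝ (Fin d)), y⟫|) / ((2 ^ S * m : ℕ) : ℝ) := by
    push_cast
    ring
  rw [h7]
  have h8 : (1 - (A.card : ℝ) / ((2 ^ S * m : ℕ) : ℝ)) * I =
      I - (A.card : ℝ) / ((2 ^ S * m : ℕ) : ℝ) * I := by ring
  have h9 : (1 - (A.card : ℝ) / ((2 ^ S * m : ℕ) : ℝ)) * I ≤
      (∑ l, |⟪((L l : A) : EuclideanSpace ℝ (Fin d)), y⟫|) / ((2 ^ S * m : ℕ) : ℝ) := h4
  linarith

end Pool.Agent.Helper22.DH
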