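import Mathlib
import Pool.Agent.Helper6.Helly.Iter
import Pool.Agent.Helper15.QH.Halving

/-!
Iterated halving (MP_882a21_co, symmetric case; helper15's scheme, helper6's induction).
-/

set_option autoImplicit false

namespace Pool.Agent.Helper22.DH

open scoped BigOperators

/-- Project DH, piece ITERATE: from `2 ^ S * m` vectors to `m` vectors. -/
theorem iterate {n : ℕ} (C2 : ℝ) (hC2 : 0 < C2) (B : Finset (Fin n)) (m S : ℕ)
    (hm : 0 < m) (c : Fin (2 ^ S * m) → Fin n → ℝ) (hc : ∀ l, ∑ i, c l i ^ 2 ≤ C2)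
    (ρ Λ : ℝ) (hρ : 0 ≤ ρ) (hΛ : 0 ≤ Λ) :
    ∃ (f : Fin m → Fin (2 ^ S * m)) (R : Finset (Fin n)), R ⊆ B ∧ R.card ≤ m ∧
      ∀ Y : Fin n → ℝ, (∀ i, i ∉ B \ R → |Y i| ≤ ρ) → ∑ i ∈ B, |Y i| ≤ Λ →
        1 / (2 ^ S * m : ℝ) * ∑ l, |∑ i, c l i * Y i| -
            (28 / m * Λ * √(C2 * Real.log (2 * n)) + 6 * ρ * √(2 * n * C2 / m)) ≤
          1 / (m : ℝ) * ∑ j, |∑ i, c (f j) i * Y i| := by
  have hm0 : (0 : ℝ) < m := by exact_mod_cast hm
  have H : Pool.Agent.Helper6.Helly.HalvingStmt := by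
    intro n N x x' J V C h1 h2 ρ Λ hρ hΛ
    exact Pool.Agent.Helper15.QH.halving x x' J V C h1 h2 ρ Λ hρ hΛ
  obtain ⟨R, hRB, hRc, L₀, hL⟩ := Pool.Agent.Helper6.Helly.iterate H c C2 hC2 hc B m hm ρ Λ hρ hΛ
    (4 * Λ * √(C2 * Real.log (2 * n)) / m) (2 * ρ * √(2 * n * C2 / m)) le_rfl le_rfl S
    (2 ^ S * m) rfl id
  refine ⟨L₀, R, hRB, ?_, fun Y h1 h2 => ?_⟩
  · have h1 : (R.card : ℝ) ≤ m := by
      refine hRc.trans ?_
      have : (0 : ℝ) ≤ (2 / 3) ^ S := by positivity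
      nlinarith
    exact_mod_cast h1
  · have h3 := hL Y h1 h2
    simp only [id] at h3
    have e1 : 0 ≤ 4 * Λ * √(C2 * Real.log (2 * n)) / m := by positivity
    have e2 : 0 ≤ 2 * ρ * √(2 * n * C2 / m) := by positivity
    have h4 : 7 * (1 - (7 / 8 : ℝ) ^ S) * (4 * Λ * √(C2 * Real.log (2 * n)) / m) ≤
        7 * (4 * Λ * √(C2 * Real.log (2 * n)) / m) := by
      apply mul_le_mul_of_nonneg_right _ e1
      have : (0 : ℝ) ≤ (7 / 8) ^ S := by positivity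
      linarith
    have h5 : 3 * (1 - (3 / 4 : ℝ) ^ S) * (2 * ρ * √(2 * n * C2 / m)) ≤
        3 * (2 * ρ * √(2 * n * C2 / m)) := by
      apply mul_le_mul_of_nonneg_right _ e2
      have : (0 : ℝ) ≤ (3 / 4) ^ S := by positivity
      linarith
    have h6 : (28 / m * Λ * √(C2 * Real.log (2 * n)) + 6 * ρ * √(2 * n * C2 / m)) =
        7 * (4 * Λ * √(C2 * Real.log (2 * n)) / m) + 3 * (2 * ρ * √(2 * n * C2 / m)) := by
      ring
    have h7 : (∑ l, |∑ i, c l i * Y i|) / ((2 ^ S * m : ℕ) : ℝ) =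
        1 / (2 ^ S * m : ℝ) * ∑ l, |∑ i, c l i * Y i| := by
      push_cast
      ring
    have h8 : (∑ j, |∑ i, c (L₀ j) i * Y i|) / (m : ℝ) =
        1 / (m : ℝ) * ∑ j, |∑ i, c (L₀ j) i * Y i| := by ring
    rw [h7, h8] at h3
    rw [h6]
    linarith

end Pool.Agent.Helper22.DH
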