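import Mathlib
import Pool.Agent.Helper98.QH.LevelSigns

/-!
One-sided sign selection (MP_882a21_co, symmetric case; helper98's version).
-/

set_option autoImplicit false

namespace Pool.Agent.Helper22.DH

open scoped BigOperators Matrix

/-- Project DH, piece SIGNS. -/
theorem signs {n : ℕ} (P : Matrix (Fin n) (Fin n) ℝ) (hs : Pᵀ = P) (hi : P * P = P)
    (hdiag : ∀ i, P i i ≤ 1 / 256) (k : ℕ) (hk : 0 < k) (htr : P.trace = k) :
    ∃ Z : Fin n → ℝ, P *ᵥ Z = Z ∧ ∃ B : Finset (Fin n), 6 * k ≤ B.card ∧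
      (∀ i ∈ B, 1 ≤ |Z i|) ∧ ∑ i, |Z i| ≤ 240 * √((n : ℝ) * B.card) := by
  obtain ⟨B, u, hu, hB, h1, h2⟩ := Pool.Agent.Helper98.QH.level_signs P hs hi (1 / 256) le_rfl
    hdiag k hk htr
  refine ⟨u, hu, B, hB, h1, h2.trans ?_⟩
  exact mul_le_mul_of_nonneg_right (by norm_num) (Real.sqrt_nonneg _)

end Pool.Agent.Helper22.DH
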