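import Mathlib
import Pool.Agent.Helper22.DH.Frame
import Pool.Agent.Helper22.DH.Signs
import Pool.Agent.Helper22.DH.Iterate
import Pool.Agent.Helper22.DH.Cert
import Pool.Agent.Helper6.Helly.FamQ

/-!
The radius bound for `2 d` members of a symmetric set (MP_882a21_co).
-/

set_option autoImplicit false

namespace Pool.Agent.Helper22.DH

open scoped BigOperators Matrix RealInnerProductSpace

open Pool.Agent.Helper6.Helly (RadCore Eu)

/-- The support form of the hypothesis. -/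
lemma support {d : ℕ} (hd : 0 < d) (A : Finset (Eu d)) (r : ℝ)
    (hA : ∀ x : Eu d, (∀ p ∈ A, ⟪p, x⟫ ≤ 1) → ‖x‖ ≤ r) :
    0 < r ∧ ∀ y : Eu d, ∃ p ∈ A, ‖y‖ ≤ r * ⟪p, y⟫ := by
  classical
  have hne : A.Nonempty := by
    rw [Finset.nonempty_iff_ne_empty]
    intro h
    obtain ⟨x, hx⟩ := Pool.Agent.Helper6.Helly.exists_norm hd r
    have := hA x (by simp [h])
    linarith
  have key : ∀ y : Eu d, y ≠ 0 → ∃ p ∈ A, 0 < ⟪p, y⟫ ∧ ‖y‖ ≤ r * ⟪p, y⟫ := by
    intro y hy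
    have hyn : 0 < ‖y‖ := norm_pos_iff.2 hy
    obtain ⟨p, hp, hmax⟩ := A.exists_max_image (fun p => ⟪p, y⟫) hne
    refine ⟨p, hp, ?_⟩
    have hpos : 0 < ⟪p, y⟫ := by
      by_contra hcon
      push Not at hcon
      have h1 := hA (((|r| + 1) / ‖y‖) • y) (by
        intro q hq
        rw [real_inner_smul_right]
        have h2 := (hmax q hq).trans hcon
        have h3 : 0 ≤ (|r| + 1) / ‖y‖ := by positivity
        nlinarith)
      rw [norm_smul, Real.norm_eq_abs, abs_of_nonneg (by positivity),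
        div_mul_cancel₀ _ hyn.ne'] at h1
      have := le_abs_self r
      linarith
    refine ⟨hpos, ?_⟩
    have h1 := hA ((⟪p, y⟫)⁻¹ • y) (by
      intro q hq
      rw [real_inner_smul_right, inv_mul_le_iff₀ hpos, mul_one]
      exact hmax q hq)
    rw [norm_smul, Real.norm_eq_abs, abs_of_pos (by positivity), inv_mul_le_iff₀ hpos] at h1
    linarith
  have hr : 0 < r := by
    obtain ⟨x, hx⟩ := Pool.Agent.Helper6.Helly.exists_norm hd 0
    obtain ⟨p, _, h1, h2⟩ := key x (norm_pos_iff.1 hx)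
    by_contra hcon
    push Not at hcon
    nlinarith
  refine ⟨hr, fun y => ?_⟩
  rcases eq_or_ne y 0 with rfl | hy
  · obtain ⟨p, hp⟩ := hne
    exact ⟨p, hp, by simp⟩
  · obtain ⟨p, hp, _, h⟩ := key y hy
    exact ⟨p, hp, h⟩

/-- The synthesis operator of the dual frame is bounded. -/
lemma synth {d n : ℕ} (A : Finset (Eu d)) (r : ℝ) (hr : 0 < r)
    (hA : ∀ y : Eu d, ∃ p ∈ A, ‖y‖ ≤ r * ⟪p, y⟫) (ts : Fin n → Eu d)
    (hts : ∀ a ∈ A, ∑ i, ⟪ts i, a⟫ ^ 2 ≤ 255) (c : Fin n → ℝ) :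
    ‖∑ i, c i • ts i‖ ≤ 16 * r * √(∑ i, c i ^ 2) := by
  obtain ⟨p, hp, h⟩ := hA (∑ i, c i • ts i)
  have h1 : ⟪p, ∑ i, c i • ts i⟫ = ∑ i, c i * ⟪ts i, p⟫ := by
    rw [inner_sum]
    refine Finset.sum_congr rfl fun i _ => ?_
    rw [real_inner_smul_right, real_inner_comm]
  have h2 : (∑ i, c i * ⟪ts i, p⟫) ^ 2 ≤ (∑ i, c i ^ 2) * 255 :=
    (Finset.sum_mul_sq_le_sq_mul_sq _ _ _).trans
      (mul_le_mul_of_nonneg_left (hts p hp) (Finset.sum_nonneg fun _ _ => sq_nonneg _))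
  have h3 : ∑ i, c i * ⟪ts i, p⟫ ≤ 16 * √(∑ i, c i ^ 2) := by
    apply (abs_le_of_sq_le_sq' (b := 16 * √(∑ i, c i ^ 2)) _ (by positivity)).2
    rw [mul_pow, Real.sq_sqrt (Finset.sum_nonneg fun _ _ => sq_nonneg _)]
    nlinarith [Finset.sum_nonneg fun (i : Fin n) (_ : i ∈ Finset.univ) => sq_nonneg (c i)]
  rw [h1] at h
  nlinarith

/-- The selected members of the frame. -/
noncomputable def Si {d n : ℕ} (t : Fin n → Eu d) (Z : Fin n → ℝ) (B : Finset (Fin n))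
    (i : Fin n) : Finset (Eu d) :=
  open scoped Classical in
  if i ∈ B then {if 0 ≤ Z i then t i else -t i} else {t i, -t i}

/-- What the one-sided selection gives. -/
lemma onesided {d n : ℕ} (t : Fin n → Eu d) (Z : Fin n → ℝ) (B B' : Finset (Fin n))
    (hBB : B' ⊆ B) (hZB : ∀ i ∈ B, 1 ≤ |Z i|) (hZ : ∀ y, ∑ i, Z i * ⟪t i, y⟫ = 0)
    (y : Eu d) (ρ : ℝ) (hρ : 0 ≤ ρ) (hy : ∀ i, ∀ p ∈ Si t Z B' i, ⟪p, y⟫ ≤ ρ) :
    (∀ i, i ∉ B' → |⟪t i, y⟫| ≤ ρ) ∧ ∑ i ∈ B, |⟪t i, y⟫| ≤ 2 * ρ * ∑ i, |Z i| := by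
  classical
  have h1 : ∀ i, i ∉ B' → |⟪t i, y⟫| ≤ ρ := by
    intro i hi
    have h2 := hy i (t i) (by simp [Si, hi])
    have h3 := hy i (-t i) (by simp [Si, hi])
    rw [inner_neg_left] at h3
    rw [abs_le]
    constructor <;> linarith
  refine ⟨h1, ?_⟩
  -- `|Z i| |Y i| ≤ 2 ρ |Z i| - Z i Y i` for all `i`
  have h2 : ∀ i, |Z i| * |⟪t i, y⟫| ≤ 2 * ρ * |Z i| - Z i * ⟪t i, y⟫ := by
    intro i
    by_cases hi : i ∈ B'
    · by_cases hZi : 0 ≤ Z i
      · have h3 := hy i (t i) (by simp [Si, hi, hZi])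
        rw [abs_of_nonneg hZi]
        rcases le_total 0 ⟪t i, y⟫ with h4 | h4
        · rw [abs_of_nonneg h4]; nlinarith
        · rw [abs_of_nonpos h4]; nlinarith
      · have h3 := hy i (-t i) (by simp [Si, hi, hZi])
        rw [inner_neg_left] at h3
        push Not at hZi
        rw [abs_of_neg hZi]
        rcases le_total 0 ⟪t i, y⟫ with h4 | h4
        · rw [abs_of_nonneg h4]; nlinarith
        · rw [abs_of_nonpos h4]; nlinarith
    · have h3 := h1 i hi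
      have h4 : |Z i| * |⟪t i, y⟫| ≤ |Z i| * ρ := mul_le_mul_of_nonneg_left h3 (abs_nonneg _)
      have h5 : Z i * ⟪t i, y⟫ ≤ |Z i| * |⟪t i, y⟫| := by
        rw [← abs_mul]; exact le_abs_self _
      linarith
  have h3 : ∑ i, |Z i| * |⟪t i, y⟫| ≤ 2 * ρ * ∑ i, |Z i| := by
    calc ∑ i, |Z i| * |⟪t i, y⟫| ≤ ∑ i, (2 * ρ * |Z i| - Z i * ⟪t i, y⟫) :=
          Finset.sum_le_sum fun i _ => h2 i
      _ = 2 * ρ * ∑ i, |Z i| := by
          rw [Finset.sum_sub_distrib, hZ y, sub_zero, Finset.mul_sum]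
  calc ∑ i ∈ B, |⟪t i, y⟫| ≤ ∑ i ∈ B, |Z i| * |⟪t i, y⟫| := by
        apply Finset.sum_le_sum
        intro i hi
        have := hZB i hi
        nlinarith [abs_nonneg ⟪t i, y⟫]
    _ ≤ ∑ i, |Z i| * |⟪t i, y⟫| :=
        Finset.sum_le_sum_of_subset_of_nonneg (Finset.subset_univ _)
          fun i _ _ => mul_nonneg (abs_nonneg _) (abs_nonneg _)
    _ ≤ _ := h3

lemma card_Si {d n : ℕ} (t : Fin n → Eu d) (Z : Fin n → ℝ) (B : Finset (Fin n)) :
    (Finset.univ.biUnion (Si t Z B)).card + B.card ≤ 2 * n := by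
  classical
  have h1 : ∀ i, (Si t Z B i).card + (if i ∈ B then 1 else 0) ≤ 2 := by
    intro i
    simp only [Si]
    by_cases h : i ∈ B
    · simp [h]
    · simp only [h, if_false, add_zero]
      exact Finset.card_le_two
  have h2 : (∑ i, ((Si t Z B i).card + (if i ∈ B then 1 else 0))) ≤ ∑ i : Fin n, 2 :=
    Finset.sum_le_sum fun i _ => h1 i
  rw [Finset.sum_add_distrib, Finset.sum_ite_mem, Finset.univ_inter, Finset.sum_const,
    Finset.sum_const, Finset.card_univ, Fintype.card_fin, smul_eq_mul, smul_eq_mul,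
    mul_one] at h2
  have h3 : (Finset.univ.biUnion (Si t Z B)).card ≤ ∑ i, (Si t Z B i).card :=
    Finset.card_biUnion_le
  omega

lemma Si_sub {d n : ℕ} (A : Finset (Eu d)) (hsym : ∀ p ∈ A, -p ∈ A) (t : Fin n → Eu d)
    (ht : ∀ i, t i ∈ A) (Z : Fin n → ℝ) (B : Finset (Fin n)) :
    Finset.univ.biUnion (Si t Z B) ⊆ A := by
  classical
  intro p hp
  obtain ⟨i, _, hi⟩ := Finset.mem_biUnion.1 hp
  simp only [Si] at hi
  split_ifs at hi with h1 h2
  · rw [Finset.mem_singleton.1 hi]; exact ht i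
  · rw [Finset.mem_singleton.1 hi]; exact hsym _ (ht i)
  · rcases Finset.mem_insert.1 hi with h | h
    · rw [h]; exact ht i
    · rw [Finset.mem_singleton.1 h]; exact hsym _ (ht i)

end Pool.Agent.Helper22.DH
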