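import Mathlib
import Pool.Agent.Helper15.QH.Halving

/-!
The halving lemma (MP_882a21_co, symmetric case; helper15).
-/

set_option autoImplicit false

namespace Pool.Agent.Helper22.DH

open scoped BigOperators

/-- Project DH, piece HALVING: one element of every pair is chosen. -/
theorem halving {n N : ℕ} (c : Fin N → Bool → Fin n → ℝ) (J : Finset (Fin n)) (V W : ℝ)
    (hV : ∀ i ∈ J, ∑ l, ∑ s, c l s i ^ 2 ≤ V) (hW : ∑ l, ∑ s, ∑ i, c l s i ^ 2 ≤ W)
    (hV0 : 0 ≤ V) (ρ Λ : ℝ) (hρ : 0 ≤ ρ) (hΛ : 0 ≤ Λ) (b : ℕ) (hb : 1 ≤ b) (hJ : J.card ≤ b) :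
    ∃ s : Fin N → Bool, ∀ Y : Fin n → ℝ, (∀ i, i ∉ J → |Y i| ≤ ρ) → ∑ i ∈ J, |Y i| ≤ Λ →
      (1 / 2) * ∑ l, ∑ s', |∑ i, c l s' i * Y i| -
          (Λ * √(2 * V * Real.log (2 * b)) + ρ * √(n * W)) ≤
        ∑ l, |∑ i, c l (s l) i * Y i| := by
  obtain ⟨s, hs⟩ := Pool.Agent.Helper15.QH.halving_card (fun l => c l true) (fun l => c l false)
    J V W (fun i hi => by simpa [Fintype.sum_bool] using hV i hi)
    (by
      refine le_trans (le_of_eq ?_) hW
      apply Finset.sum_congr rfl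
      intro l _
      rw [Fintype.sum_bool, Finset.sum_add_distrib])
    ρ Λ hρ hΛ b (by exact_mod_cast hb) (by exact_mod_cast hJ)
  refine ⟨s, fun Y h1 h2 => ?_⟩
  have h := hs Y h1 h2
  simp only [Fintype.sum_bool]
  refine h.trans (le_of_eq ?_)
  apply Finset.sum_congr rfl
  intro l _
  cases s l <;> rfl

end Pool.Agent.Helper22.DH
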