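import Mathlib
import Pool.Agent.Helper22.DH.Core

/-!
The radius bound `C √(d log (2 d))` for symmetric sets (MP_882a21_co).
-/

set_option autoImplicit false

namespace Pool.Agent.Helper22.DH

open scoped BigOperators Matrix RealInnerProductSpace

open Pool.Agent.Helper6.Helly (RadCore Eu)

/-- The numerical inequality at the end. -/
lemma numeric (d n b m : ℕ) (hd : 0 < d) (hn : (n : ℝ) * (255 / 256) ≤ d) (hbn : b ≤ n)
    (hb : 6 ≤ b) (hm : b ≤ 12 * m) (r ρ zs : ℝ) (hr : 0 < r)
    (hρ : ρ = 1 / (30000000 * √((d : ℝ) * Real.log (2 * d)) * r))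
    (hz0 : 0 ≤ zs) (hz : zs ≤ 240 * √((n : ℝ) * b)) (pe : ℝ) (hpe : 1 / 2 ≤ pe)
    (h : pe / (2 * √b * r) - 1 / (8 * √b * r) * 1 -
      (28 / m * (2 * ρ * zs) * √(255 * Real.log (2 * n)) +
        6 * ρ * √(2 * n * 255 / m)) ≤ ρ) : False := by
  have hd' : (1 : ℝ) ≤ d := by exact_mod_cast hd
  have hb' : (6 : ℝ) ≤ b := by exact_mod_cast hb
  have hbn' : (b : ℝ) ≤ n := by exact_mod_cast hbn
  have hm' : (b : ℝ) ≤ 12 * m := by exact_mod_cast hm
  have hm0 : (0 : ℝ) < m := by linarith
  have hb0 : (0 : ℝ) < b := by linarith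
  have hn0 : (0 : ℝ) < n := by linarith
  have hlog2 : (0.6931 : ℝ) ≤ Real.log (2 * d) := by
    have h1 : Real.log 2 ≤ Real.log (2 * d) := Real.log_le_log (by norm_num) (by linarith)
    have := Real.log_two_gt_d9
    linarith
  have hlogb : Real.log (2 * n) ≤ 2 * Real.log (2 * d) := by
    have h1 : Real.log (2 * n) ≤ Real.log ((2 * d) ^ 2) := by
      apply Real.log_le_log (by linarith)
      nlinarith
    rw [Real.log_pow] at h1
    exact_mod_cast h1
  have hlogb0 : 0 ≤ Real.log (2 * n) := Real.log_nonneg (by linarith)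
  set L := Real.log (2 * (d : ℝ)) with hL
  set q := √((d : ℝ) * L) with hq
  have hq2 : q ^ 2 = d * L := Real.sq_sqrt (by positivity)
  have hq0 : 0 < q := Real.sqrt_pos.2 (by positivity)
  have hρ0 : 0 < ρ := by rw [hρ]; positivity
  have hsb : 0 < √(b : ℝ) := Real.sqrt_pos.2 hb0
  have hsb2 : √(b : ℝ) ^ 2 = b := Real.sq_sqrt hb0.le
  have hsn2 : √(n : ℝ) ^ 2 = n := Real.sq_sqrt hn0.le
  have hsn0 : 0 < √(n : ℝ) := Real.sqrt_pos.2 hn0
  have hsn : √(n : ℝ) ≤ 1.21 * q := by
    apply Real.sqrt_le_iff.2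
    refine ⟨by positivity, ?_⟩
    rw [mul_pow, hq2]
    nlinarith
  have hnT : √(n : ℝ) * √(255 * Real.log (2 * n)) ≤ 22.63 * q := by
    rw [← Real.sqrt_mul hn0.le]
    apply Real.sqrt_le_iff.2
    refine ⟨by positivity, ?_⟩
    rw [mul_pow, hq2]
    have h1 : (n : ℝ) ≤ 256 / 255 * d := by linarith
    calc (n : ℝ) * (255 * Real.log (2 * n)) ≤ (256 / 255 * d) * (255 * (2 * L)) := by
          apply mul_le_mul h1 _ (by positivity) (by positivity)
          linarith
      _ ≤ _ := by nlinarith [mul_pos (show (0 : ℝ) < d by linarith) (show (0 : ℝ) < L by linarith)]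
  have hnb : √((n : ℝ) * b) = √n * √b := Real.sqrt_mul hn0.le _
  -- the three terms
  have hm1 : 1 / (m : ℝ) ≤ 12 / b := by
    rw [div_le_div_iff₀ hm0 hb0]; linarith
  have t1 : 28 / (m : ℝ) * (2 * ρ * zs) * √(255 * Real.log (2 * n)) ≤
      ρ * (3650000 * q) / √b := by
    set T := √(255 * Real.log (2 * n)) with hT
    have hT0 : 0 ≤ T := Real.sqrt_nonneg _
    calc 28 / (m : ℝ) * (2 * ρ * zs) * T = 56 * ρ * (1 / m) * zs * T := by ring
      _ ≤ 56 * ρ * (12 / b) * (240 * √((n : ℝ) * b)) * T := by
          gcongr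
      _ = 161280 * ρ * (√n * T) * (√b / b) := by rw [hnb]; ring
      _ ≤ 161280 * ρ * (22.63 * q) * (√b / b) := by
          gcongr
      _ = 161280 * ρ * (22.63 * q) * (1 / √b) := by
          congr 1
          rw [div_eq_div_iff hb0.ne' hsb.ne']
          nlinarith
      _ ≤ _ := by
          rw [mul_one_div]
          apply div_le_div_of_nonneg_right _ hsb.le
          nlinarith [mul_pos hρ0 hq0]
  have t2 : 6 * ρ * √(2 * n * 255 / m) ≤ ρ * (600 * q) / √b := by
    have h1 : √(2 * n * 255 / m) ≤ 79 * √n / √b := by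
      have h0 : 79 * √(n : ℝ) / √(b : ℝ) = 79 * √((n : ℝ) / b) := by
        rw [mul_div_assoc, Real.sqrt_div' _ hb0.le]
      rw [h0]
      apply Real.sqrt_le_iff.2
      refine ⟨by positivity, ?_⟩
      rw [mul_pow, Real.sq_sqrt (by positivity)]
      calc 2 * (n : ℝ) * 255 / m = 2 * 255 * n * (1 / m) := by ring
        _ ≤ 2 * 255 * n * (12 / b) := by gcongr
        _ ≤ _ := by
          rw [show 2 * 255 * (n : ℝ) * (12 / b) = 6120 * (n / b) by ring]
          apply mul_le_mul_of_nonneg_right _ (by positivity)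
          norm_num
    calc 6 * ρ * √(2 * n * 255 / m) ≤ 6 * ρ * (79 * √n / √b) := by gcongr
      _ = 474 * ρ * √n / √b := by ring
      _ ≤ 474 * ρ * (1.21 * q) / √b := by gcongr
      _ ≤ _ := by
          apply div_le_div_of_nonneg_right _ hsb.le
          nlinarith [mul_pos hρ0 hq0]
  have t3 : ρ ≤ ρ * (2 * q) / √b := by
    rw [le_div_iff₀ hsb]
    apply mul_le_mul_of_nonneg_left _ hρ0.le
    have h1 : √(b : ℝ) ≤ √n := Real.sqrt_le_sqrt hbn'
    linarith
  have t4 : 1 / (4 * √b * r) ≤ pe / (2 * √b * r) := by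
    rw [div_le_div_iff₀ (by positivity) (by positivity)]
    nlinarith [mul_pos hsb hr]
  have t5 : 1 / (8 * √b * r) ≤ ρ * (3651000 * q) / √b := by
    have h1 : 1 / (4 * √b * r) = 1 / (8 * √b * r) + 1 / (8 * √b * r) := by
      field_simp; norm_num
    have h2 : ρ * (3650000 * q) / √b + ρ * (600 * q) / √b + ρ * (2 * q) / √b ≤
        ρ * (3651000 * q) / √b := by
      rw [← add_div, ← add_div]
      apply div_le_div_of_nonneg_right _ hsb.le
      nlinarith [mul_pos hρ0 hq0]
    linarith
  have t6 : ρ * (3651000 * q) / √b = 3651 / 30000 / (√b * r) := by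
    rw [hρ]
    field_simp
    norm_num
  rw [t6, div_le_div_iff₀ (by positivity) (by positivity)] at t5
  nlinarith [mul_pos hsb hr]

theorem radcore {d : ℕ} (hd : 0 < d) :
    RadCore d (30000000 * √((d : ℝ) * Real.log (2 * d))) := by
  classical
  intro A r hsym hA
  obtain ⟨hr, hsup⟩ := support hd A r hA
  have hd' : (1 : ℝ) ≤ d := by exact_mod_cast hd
  have hlog2 : (0.6931 : ℝ) ≤ Real.log (2 * d) := by
    have h1 : Real.log 2 ≤ Real.log (2 * d) := Real.log_le_log (by norm_num) (by linarith)
    have := Real.log_two_gt_d9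
    linarith
  set q := √((d : ℝ) * Real.log (2 * d)) with hq
  have hq2 : q ^ 2 = d * Real.log (2 * d) := Real.sq_sqrt (by positivity)
  have hq0 : 0 < q := Real.sqrt_pos.2 (by positivity)
  have hspan : ∀ x : Eu d, (∀ p ∈ A, ⟪p, x⟫ = 0) → x = 0 := by
    intro x hx
    obtain ⟨p, hp, h⟩ := hsup x
    rw [hx p hp, mul_zero] at h
    exact norm_le_zero_iff.1 h
  obtain ⟨n, hn1, hn2, t, ts, P, ht, hPs, hPi, hPd, hPtr, hdep, hexp, hts⟩ := frame A hspan
  have hn2' : (n : ℝ) ≤ 256 / 255 * d := by linarith
  have hsn : √(n : ℝ) ≤ 1.21 * q := by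
    apply Real.sqrt_le_iff.2
    refine ⟨by positivity, ?_⟩
    rw [mul_pow, hq2]
    nlinarith
  -- expansion of inner products
  have hin : ∀ (w y : Eu d), ∑ i, ⟪ts i, w⟫ * ⟪t i, y⟫ = ⟪w, y⟫ := by
    intro w y
    conv_rhs => rw [← hexp y]
    rw [inner_sum]
    refine Finset.sum_congr rfl fun i _ => ?_
    rw [real_inner_smul_right, real_inner_comm, mul_comm]
  -- norm of partial sums
  have hpart : ∀ (y : Eu d) (C : Finset (Fin n)) (ρ : ℝ), 0 ≤ ρ → (∀ i ∈ C, |⟪t i, y⟫| ≤ ρ) →
      ‖∑ i ∈ C, ⟪t i, y⟫ • ts i‖ ≤ 16 * r * (ρ * √n) := by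
    intro y C ρ hρ hC
    have h1 := synth A r hr hsup ts hts (fun i => if i ∈ C then ⟪t i, y⟫ else 0)
    have h2 : ∑ i, (if i ∈ C then ⟪t i, y⟫ else 0) • ts i = ∑ i ∈ C, ⟪t i, y⟫ • ts i := by
      simp only [ite_smul, zero_smul]
      rw [Finset.sum_ite_mem, Finset.univ_inter]
    rw [h2] at h1
    refine h1.trans ?_
    apply mul_le_mul_of_nonneg_left _ (by positivity)
    apply Real.sqrt_le_iff.2
    refine ⟨by positivity, ?_⟩
    rw [mul_pow, Real.sq_sqrt (Nat.cast_nonneg n)]
    calc ∑ i, (if i ∈ C then ⟪t i, y⟫ else 0) ^ 2 ≤ ∑ i : Fin n, ρ ^ 2 := by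
          apply Finset.sum_le_sum
          intro i _
          split_ifs with h
          · exact sq_le_sq' (by linarith [(abs_le.1 (hC i h)).1]) (abs_le.1 (hC i h)).2
          · nlinarith [sq_nonneg ρ]
      _ = ρ ^ 2 * n := by
          rw [Finset.sum_const, Finset.card_univ, Fintype.card_fin, nsmul_eq_mul, mul_comm]
  rcases Nat.eq_zero_or_pos (n - d) with hk | hk
  · -- `n = d`
    have hnd : n = d := by omega
    refine ⟨Finset.univ.biUnion (Si t (fun _ => 0) ∅), Si_sub A hsym t ht _ _, ?_, ?_⟩
    · have := card_Si t (fun _ => 0) ∅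
      simp only [Finset.card_empty, add_zero] at this
      omega
    · intro x hx
      have h1 : ∀ i, |⟪t i, x⟫| ≤ 1 := by
        intro i
        have h2 := hx (t i) (Finset.mem_biUnion.2 ⟨i, Finset.mem_univ _, by simp [Si]⟩)
        have h3 := hx (-t i) (Finset.mem_biUnion.2 ⟨i, Finset.mem_univ _, by simp [Si]⟩)
        rw [inner_neg_left] at h3
        rw [abs_le]
        constructor <;> linarith
      have h2 := hpart x Finset.univ 1 zero_le_one (fun i _ => h1 i)
      rw [hexp x] at h2
      have h3 : 16 * r * (1 * √n) ≤ 16 * r * (1.21 * q) := by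
        rw [one_mul]
        gcongr
      nlinarith [mul_pos hr hq0]
  · obtain ⟨Z, hPZ, B, hBk, hZB, hZ1⟩ := signs P hPs hPi hPd (n - d) hk hPtr
    have hZ := hdep Z hPZ
    have hb6 : 6 ≤ B.card := by omega
    have hBne : B.Nonempty := Finset.card_pos.1 (by omega)
    have hBn : B.card ≤ n := by
      have := Finset.card_le_univ B
      simpa using this
    set m := B.card / 6 with hm
    have hm0 : 0 < m := by omega
    have hm6 : 6 * m ≤ B.card := by omega
    have hm12 : B.card ≤ 12 * m := by omega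
    have hb0 : (0 : ℝ) < B.card := by exact_mod_cast (by omega : 0 < B.card)
    have hsb : 0 < √(B.card : ℝ) := Real.sqrt_pos.2 hb0
    set E : Submodule ℝ (Eu d) := Submodule.span ℝ (B.image ts : Set (Eu d)) with hE
    have hEr : Module.finrank ℝ E ≤ B.card :=
      (finrank_span_finset_le_card (R := ℝ) (B.image ts)).trans Finset.card_image_le
    obtain ⟨S0, w, hwA, hw⟩ := cert A r hr hsup E B.card (by omega) hEr m hm0
      (1 / (8 * √(B.card : ℝ) * r)) (by positivity)
    set ρ : ℝ := 1 / (30000000 * q * r) with hρ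
    have hρ0 : 0 < ρ := by rw [hρ]; positivity
    set zs := ∑ i, |Z i| with hzs
    have hzs0 : 0 ≤ zs := Finset.sum_nonneg fun _ _ => abs_nonneg _
    obtain ⟨f, R, hRB, hRm, hfin⟩ := iterate 255 (by norm_num) B m S0 hm0
      (fun l i => ⟪ts i, w l⟫) (fun l => hts (w l) (hwA l)) ρ (2 * ρ * zs) hρ0.le (by positivity)
    have hB'c : B.card ≤ (B \ R).card + m := by
      have := Finset.card_le_card_sdiff_add_card (s := B) (t := R)
      omega
    refine ⟨Finset.univ.biUnion (Si t Z (B \ R)) ∪ (Finset.univ.image (fun j => w (f j)) ∪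
      Finset.univ.image (fun j => -w (f j))), ?_, ?_, ?_⟩
    · intro p hp
      rcases Finset.mem_union.1 hp with h | h
      · exact Si_sub A hsym t ht Z _ h
      · rcases Finset.mem_union.1 h with h | h
        · obtain ⟨j, _, rfl⟩ := Finset.mem_image.1 h
          exact hwA _
        · obtain ⟨j, _, rfl⟩ := Finset.mem_image.1 h
          exact hsym _ (hwA _)
    · have h1 := card_Si t Z (B \ R)
      have h2 : (Finset.univ.image (fun j : Fin m => w (f j))).card ≤ m := by
        have := Finset.card_image_le (s := (Finset.univ : Finset (Fin m)))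
          (f := fun j => w (f j))
        simpa using this
      have h3 : (Finset.univ.image (fun j : Fin m => -w (f j))).card ≤ m := by
        have := Finset.card_image_le (s := (Finset.univ : Finset (Fin m)))
          (f := fun j => -w (f j))
        simpa using this
      have h4 := Finset.card_union_le (Finset.univ.biUnion (Si t Z (B \ R)))
        (Finset.univ.image (fun j : Fin m => w (f j)) ∪
          Finset.univ.image (fun j : Fin m => -w (f j)))
      have h5 := Finset.card_union_le (Finset.univ.image (fun j : Fin m => w (f j)))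
          (Finset.univ.image (fun j : Fin m => -w (f j)))
      omega
    · intro x hx
      by_contra hcon
      push Not at hcon
      have hxn : 0 < ‖x‖ := lt_trans (by positivity) hcon
      set y : Eu d := ‖x‖⁻¹ • x with hy
      have hyn : ‖y‖ = 1 := by
        rw [hy, norm_smul, norm_inv, norm_norm, inv_mul_cancel₀ hxn.ne']
      have hyS : ∀ p : Eu d, ⟪p, x⟫ ≤ 1 → ⟪p, y⟫ ≤ ρ := by
        intro p hp
        rw [hy, real_inner_smul_right]
        have h1 : ‖x‖⁻¹ ≤ ρ := by
          rw [hρ, ← one_div]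
          exact one_div_le_one_div_of_le (by positivity) hcon.le
        have h2 : 0 < ‖x‖⁻¹ := by positivity
        rcases le_total 0 ⟪p, x⟫ with h3 | h3
        · calc ‖x‖⁻¹ * ⟪p, x⟫ ≤ ‖x‖⁻¹ * 1 := mul_le_mul_of_nonneg_left hp h2.le
            _ ≤ ρ := by rw [mul_one]; exact h1
        · calc ‖x‖⁻¹ * ⟪p, x⟫ ≤ 0 := mul_nonpos_of_nonneg_of_nonpos h2.le h3
            _ ≤ ρ := hρ0.le
      obtain ⟨h1, h2⟩ := onesided t Z B (B \ R) Finset.sdiff_subset hZB hZ y ρ hρ0.le (by
        intro i p hp
        apply hyS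
        apply hx
        exact Finset.mem_union_left _ (Finset.mem_biUnion.2 ⟨i, Finset.mem_univ _, hp⟩))
      have h3 := hfin (fun i => ⟪t i, y⟫) h1 h2
      simp only [hin] at h3
      have h4 := hw y
      rw [hyn] at h4
      -- the cures
      have h5 : 1 / (m : ℝ) * ∑ j : Fin m, |⟪w (f j), y⟫| ≤ ρ := by
        have h6 : ∑ j : Fin m, |⟪w (f j), y⟫| ≤ ∑ _j : Fin m, ρ := by
          apply Finset.sum_le_sum
          intro j _
          have h7 : ⟪w (f j), y⟫ ≤ ρ := by
            apply hyS
            apply hx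
            exact Finset.mem_union_right _ (Finset.mem_union_left _
              (Finset.mem_image_of_mem (fun j => w (f j)) (Finset.mem_univ j)))
          have h8 : ⟪-w (f j), y⟫ ≤ ρ := by
            apply hyS
            apply hx
            exact Finset.mem_union_right _ (Finset.mem_union_right _
              (Finset.mem_image_of_mem (fun j => -w (f j)) (Finset.mem_univ j)))
          rw [inner_neg_left] at h8
          rw [abs_le]
          constructor <;> linarith
        rw [Finset.sum_const, Finset.card_univ, Fintype.card_fin, nsmul_eq_mul] at h6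
        have hm0' : (0 : ℝ) < m := by exact_mod_cast hm0
        rw [one_div, inv_mul_le_iff₀ hm0']
        exact h6
      -- the projection
      have h6 : 1 / 2 ≤ ‖E.starProjection y‖ := by
        set u := ∑ i ∈ B, ⟪t i, y⟫ • ts i with hu
        set v := ∑ i ∈ Bᶜ, ⟪t i, y⟫ • ts i with hv
        have huv : u + v = y := by
          rw [hu, hv, Finset.sum_add_sum_compl, hexp y]
        have huE : u ∈ E := by
          apply Submodule.sum_mem
          intro i hi
          apply Submodule.smul_mem
          apply Submodule.subset_span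
          exact Finset.mem_coe.2 (Finset.mem_image_of_mem ts hi)
        have hvn : ‖v‖ ≤ 16 * r * (ρ * √n) := by
          apply hpart y _ ρ hρ0.le
          intro i hi
          apply h1
          intro hi'
          exact (Finset.mem_compl.1 hi) (Finset.mem_sdiff.1 hi').1
        have hvn2 : ‖v‖ ≤ 1 / 4 := by
          refine hvn.trans ?_
          have h7 : 16 * r * (ρ * √n) ≤ 16 * r * (ρ * (1.21 * q)) := by gcongr
          have h8 : 16 * r * (ρ * (1.21 * q)) = 16 * 1.21 / 30000000 := by
            rw [hρ]; field_simp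
          rw [h8] at h7
          linarith
        have hPv : ‖E.starProjection v‖ ≤ ‖v‖ := Submodule.norm_starProjection_apply_le E v
        have h7 : E.starProjection y = u + E.starProjection v := by
          rw [← huv, map_add, Submodule.starProjection_eq_self_iff.2 huE]
        have h8 : ‖y‖ ≤ ‖E.starProjection y‖ + ‖E.starProjection v‖ + ‖v‖ := by
          have h9 : y = E.starProjection y - E.starProjection v + v := by
            rw [h7]; simp [huv]
          calc ‖y‖ = ‖E.starProjection y - E.starProjection v + v‖ := by rw [← h9]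
            _ ≤ ‖E.starProjection y - E.starProjection v‖ + ‖v‖ := norm_add_le _ _
            _ ≤ _ := by
              have := norm_sub_le (E.starProjection y) (E.starProjection v)
              linarith
        rw [hyn] at h8
        linarith
      refine numeric d n B.card m hd hn2 hBn hb6 hm12 r ρ zs hr (by rw [hρ]) hzs0 hZ1 _ h6 ?_
      linarith

end Pool.Agent.Helper22.DH
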